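import Pool.Agent.helper9.HQ.Spec

set_option autoImplicit false

open scoped Classical

namespace Pool.Agent.helper9.HQ

open Finset
open Pool.Agent.helper65.HC (V IsEig IsTop lam)

noncomputable section

/-- the root of `2 s ^ 2 = Y (1 - s)` -/
def STAR_sg (Y : ℝ) : ℝ := (√(Y ^ 2 + 8 * Y) - Y) / 4

theorem STAR_sg_eq {Y : ℝ} (hY : 0 ≤ Y) : 2 * STAR_sg Y ^ 2 = Y * (1 - STAR_sg Y) := by
  unfold STAR_sg
  have h := Real.sq_sqrt (show 0 ≤ Y ^ 2 + 8 * Y by positivity)
  nlinarith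

theorem STAR_sg_nonneg {Y : ℝ} (hY : 0 ≤ Y) : 0 ≤ STAR_sg Y := by
  unfold STAR_sg
  have h : Y ≤ √(Y ^ 2 + 8 * Y) := by
    apply Real.le_sqrt_of_sq_le
    linarith
  linarith

theorem STAR_sg_lt {Y : ℝ} (hY : 0 ≤ Y) : STAR_sg Y < 1 := by
  unfold STAR_sg
  have h : √(Y ^ 2 + 8 * Y) < Y + 4 := by
    rw [Real.sqrt_lt' (by linarith)]
    nlinarith
  linarith

theorem STAR_sg_pos {Y : ℝ} (hY : 0 < Y) : 0 < STAR_sg Y := by
  unfold STAR_sg
  have h : Y < √(Y ^ 2 + 8 * Y) := by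
    apply Real.lt_sqrt_of_sq_lt
    linarith
  linarith

/-- the algebraic inequality -/
theorem STAR_alg {n : ℝ} {u s : ℝ} (hn : 2 ≤ n) (hu : 0 < u) (hs0 : 0 < s) (hs1 : s < 1)
    (h : 2 * s ^ 2 * (1 + u) = n * (n - 1) * u ^ 2 * (1 - s)) :
    (2 + u) * (1 - s) * (1 + n * u) ≤ (1 + u) * (2 - s) * (1 + s) := by
  have hK : 2 ≤ n * (n - 1) := by nlinarith
  -- `s ≥ u / (1 + u)`
  have h1 : u ≤ s * (1 + u) := by
    by_contra hc
    push_neg at hc
    have hs2 : 0 < 1 - s := by linarith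
    have h2 : 2 * u ^ 2 * (1 - s) ≤ 2 * s ^ 2 * (1 + u) := by
      rw [h]
      have : 0 ≤ u ^ 2 * (1 - s) := by positivity
      nlinarith
    have h3 : s * (s * (1 + u)) < s * u := by nlinarith
    have h4 : u ^ 2 * (1 - s) < s * u := by nlinarith
    have h5 : u * (1 - s) < s := by nlinarith
    nlinarith
  obtain ⟨R, hR⟩ : ∃ R : ℝ, R = 2 * s * (3 - s) * (1 + u) - u ^ 2 * (1 - s) := ⟨_, rfl⟩
  have hR0 : 0 ≤ R := by
    rw [hR]
    have h2 : 4 * u ≤ 2 * s * (3 - s) * (1 + u) := by nlinarith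
    have h3 : u ^ 2 * (1 - s) ≤ u := by
      have : u * (1 - s) ≤ 1 := by nlinarith
      nlinarith
    linarith
  have hsq : ((1 - s) * (2 + u) * u * (2 * n - 1)) ^ 2 ≤ R ^ 2 := by
    have h2 : R ^ 2 - ((1 - s) * (2 + u) * u * (2 * n - 1)) ^ 2 =
        4 * (1 + u) * (1 + s) ^ 2 * (s + u) * (s * (1 + u) - u) := by
      have h3 : ((1 - s) * (2 + u) * u * (2 * n - 1)) ^ 2 =
          (2 + u) ^ 2 * ((1 - s) ^ 2 * u ^ 2 + 4 * (1 - s) * (n * (n - 1) * u ^ 2 * (1 - s))) := by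
        ring
      rw [h3, ← h, hR]
      ring
    have h4 : 0 ≤ 4 * (1 + u) * (1 + s) ^ 2 * (s + u) * (s * (1 + u) - u) := by
      have : 0 ≤ s * (1 + u) - u := by linarith
      positivity
    linarith
  have h5 := abs_le_of_sq_le_sq' hsq hR0
  have h6 := h5.2
  rw [hR] at h6
  nlinarith

theorem STAR_G {n : ℕ} (hn : 2 ≤ n) {u : ℝ} (hu : 0 < u) :
    STAR_sg (YY n u) ^ 2 ≤ 1 - zz n u := by
  have hnR : (2 : ℝ) ≤ n := by exact_mod_cast hn
  have hK : (0 : ℝ) < n * (n - 1) := by nlinarith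
  obtain ⟨Y, hYd⟩ : ∃ Y : ℝ → ℝ, Y = fun u => (n : ℝ) * (n - 1) * u ^ 2 / (1 + u) := ⟨_, rfl⟩
  have hY0 : ∀ r, 0 ≤ r → 0 ≤ Y r := by
    intro r hr
    rw [hYd]
    have : 0 < 1 + r := by linarith
    positivity
  have hYp : ∀ r, 0 < r → 0 < Y r := by
    intro r hr
    rw [hYd]
    have : 0 < 1 + r := by linarith
    positivity
  obtain ⟨s, hs⟩ : ∃ s : ℝ → ℝ, s = fun r => STAR_sg (Y r) := ⟨_, rfl⟩
  have hs0 : ∀ r, 0 ≤ r → 0 ≤ s r := fun r hr => by rw [hs]; exact STAR_sg_nonneg (hY0 r hr)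
  have hs1 : ∀ r, 0 ≤ r → s r < 1 := fun r hr => by rw [hs]; exact STAR_sg_lt (hY0 r hr)
  have hsp : ∀ r, 0 < r → 0 < s r := fun r hr => by rw [hs]; exact STAR_sg_pos (hYp r hr)
  have hse : ∀ r, 0 ≤ r → 2 * s r ^ 2 = Y r * (1 - s r) := fun r hr => by
    rw [hs]; exact STAR_sg_eq (hY0 r hr)
  have hYcont : ContinuousOn Y (Set.Ici 0) := by
    rw [hYd]
    apply ContinuousOn.div
    · fun_prop
    · fun_prop
    · intro x hx
      have : (0 : ℝ) ≤ x := hx
      have : 0 < 1 + x := by linarith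
      exact this.ne'
  have hscont : ContinuousOn s (Set.Ici 0) := by
    rw [hs]
    unfold STAR_sg
    apply ContinuousOn.div_const
    apply ContinuousOn.sub _ hYcont
    apply Real.continuous_sqrt.comp_continuousOn
    exact (hYcont.pow 2).add (continuousOn_const.mul hYcont)
  have hYder : ∀ r, 0 < r → HasDerivAt Y ((n : ℝ) * (n - 1) * r * (2 + r) / (1 + r) ^ 2) r := by
    intro r hr
    have h0 : (1 + r) ≠ 0 := by positivity
    have h1 : HasDerivAt (fun u : ℝ => (n : ℝ) * (n - 1) * u ^ 2)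
        ((n : ℝ) * (n - 1) * (2 * r)) r := by
      have := (hasDerivAt_pow 2 r).const_mul ((n : ℝ) * (n - 1))
      simpa using this
    have h2 : HasDerivAt (fun u : ℝ => 1 + u) 1 r := (hasDerivAt_id r).const_add 1
    have h3 := h1.div h2 h0
    rw [hYd]
    refine HasDerivAt.congr_deriv h3 ?_
    field_simp
    ring
  have hsdiff : ∀ r, 0 < r → ∃ s' : ℝ, HasDerivAt s s' r := by
    intro r hr
    have h1 := hYder r hr
    have h2 : HasDerivAt (fun u => Y u ^ 2 + 8 * Y u)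
        (2 * Y r * ((n : ℝ) * (n - 1) * r * (2 + r) / (1 + r) ^ 2) +
          8 * ((n : ℝ) * (n - 1) * r * (2 + r) / (1 + r) ^ 2)) r := by
      have := (h1.pow 2).add (h1.const_mul 8)
      refine HasDerivAt.congr_deriv this ?_
      push_cast
      ring
    have h3 : Y r ^ 2 + 8 * Y r ≠ 0 := by
      have := hYp r hr
      positivity
    have h4 := ((h2.sqrt h3).sub h1).div_const 4
    exact ⟨_, by rw [hs]; exact h4⟩
  have hsder : ∀ r, 0 < r → ∀ s' : ℝ, HasDerivAt s s' r →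
      2 * s r * s' * (2 - s r) = (n : ℝ) * (n - 1) * r * (2 + r) / (1 + r) ^ 2 * (1 - s r) ^ 2 := by
    intro r hr s' hs'
    have h1 : HasDerivAt (fun u => 2 * s u ^ 2) (2 * (2 * s r * s')) r := by
      have := (hs'.pow 2).const_mul 2
      refine HasDerivAt.congr_deriv this ?_
      push_cast
      ring
    have h2 : HasDerivAt (fun u => Y u * (1 - s u))
        ((n : ℝ) * (n - 1) * r * (2 + r) / (1 + r) ^ 2 * (1 - s r) + Y r * (-s')) r :=
      (hYder r hr).mul (hs'.const_sub 1)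
    have h3 : (fun u => 2 * s u ^ 2) =ᶠ[nhds r] fun u => Y u * (1 - s u) := by
      filter_upwards [lt_mem_nhds hr] with x hx
      exact hse x hx.le
    have h4 := h1.unique (h2.congr_of_eventuallyEq h3)
    have h5 := hse r hr.le
    have h6 : 0 < 1 - s r := by linarith [hs1 r hr.le]
    obtain ⟨d, hd⟩ : ∃ d : ℝ, d = (n : ℝ) * (n - 1) * r * (2 + r) / (1 + r) ^ 2 := ⟨_, rfl⟩
    rw [← hd] at h4 ⊢
    -- `4 s s' = d (1 - s) - Y s'`, `Y (1 - s) = 2 s ^ 2`
    have h7 : 4 * s r * s' * (1 - s r) = d * (1 - s r) ^ 2 - 2 * s r ^ 2 * s' := by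
      rw [h5]
      linear_combination (1 - s r) * h4
    linear_combination h7
  obtain ⟨G, hG⟩ : ∃ G : ℝ → ℝ, G = fun r => Real.log (1 - s r ^ 2) - Real.log (1 + n * r) +
      n * Real.log (1 + r) := ⟨_, rfl⟩
  have hp1 : ∀ r, 0 ≤ r → 0 < 1 - s r ^ 2 := by
    intro r hr
    have h1 := hs0 r hr
    have h2 := hs1 r hr
    nlinarith
  have hGcont : ContinuousOn G (Set.Ici 0) := by
    rw [hG]
    apply ContinuousOn.add
    · apply ContinuousOn.sub
      · apply ContinuousOn.log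
        · exact continuousOn_const.sub (hscont.pow 2)
        · intro x hx
          exact (hp1 x hx).ne'
      · apply ContinuousOn.log
        · fun_prop
        · intro x hx
          have h0 : (0 : ℝ) ≤ x := hx
          positivity
    · apply ContinuousOn.mul continuousOn_const
      apply ContinuousOn.log
      · fun_prop
      · intro x hx
        have h0 : (0 : ℝ) ≤ x := hx
        positivity
  have hGder : ∀ r, 0 < r → ∃ g : ℝ, 0 ≤ g ∧ HasDerivAt G g r := by
    intro r hr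
    obtain ⟨s', hs'⟩ := hsdiff r hr
    have h1 : HasDerivAt (fun u => 1 - s u ^ 2) (-(2 * s r * s')) r := by
      have := (hs'.pow 2).const_sub 1
      refine HasDerivAt.congr_deriv this ?_
      push_cast
      ring
    have h2 := h1.log (hp1 r hr.le).ne'
    have h3 : HasDerivAt (fun u : ℝ => 1 + (n : ℝ) * u) (n : ℝ) r := by
      have := ((hasDerivAt_id r).const_mul (n : ℝ)).const_add 1
      simpa using this
    have h3' := h3.log (by positivity : (1 : ℝ) + n * r ≠ 0)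
    have h4 : HasDerivAt (fun u : ℝ => 1 + u) 1 r := (hasDerivAt_id r).const_add 1
    have h4' := (h4.log (by positivity : (1 : ℝ) + r ≠ 0)).const_mul (n : ℝ)
    have h5 := (h2.sub h3').add h4'
    refine ⟨_, ?_, by rw [hG]; exact h5⟩
    have hd := hsder r hr s' hs'
    have a0 := hsp r hr
    have a1 := hs1 r hr.le
    have hp := hp1 r hr.le
    have halg := STAR_alg hnR hr a0 a1 (by
      have h6 := hse r hr.le
      rw [hYd] at h6
      simp only at h6
      have h7 : (1 + r) ≠ 0 := by positivity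
      rw [h6]
      field_simp)
    have h8 : 2 * s r * s' = (n : ℝ) * (n - 1) * r * (2 + r) / (1 + r) ^ 2 * (1 - s r) ^ 2 /
        (2 - s r) := by
      rw [eq_div_iff (by linarith)]
      exact hd
    rw [h8]
    have h9 : -((n : ℝ) * (n - 1) * r * (2 + r) / (1 + r) ^ 2 * (1 - s r) ^ 2 / (2 - s r)) /
        (1 - s r ^ 2) - (n : ℝ) / (1 + n * r) + n * (1 / (1 + r)) =
        (n : ℝ) * (n - 1) * r * ((1 + r) * (2 - s r) * (1 + s r) -
          (2 + r) * (1 - s r) * (1 + n * r)) / ((1 + r) ^ 2 * (1 + n * r) * (2 - s r) *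
            (1 + s r)) := by
      have e1 : (1 : ℝ) + r ≠ 0 := by positivity
      have e2 : (1 : ℝ) + n * r ≠ 0 := by positivity
      have e3 : 2 - s r ≠ 0 := by linarith
      have e4 : 1 + s r ≠ 0 := by positivity
      have e5 : 1 - s r ≠ 0 := by linarith
      have e6 : 1 - s r ^ 2 = (1 - s r) * (1 + s r) := by ring
      rw [e6]
      field_simp
      ring
    rw [h9]
    have h10 : 0 ≤ (1 + r) * (2 - s r) * (1 + s r) - (2 + r) * (1 - s r) * (1 + n * r) := by
      linarith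
    have h11 : 0 < 2 - s r := by linarith
    positivity
  have hmono : MonotoneOn G (Set.Ici 0) := by
    apply monotoneOn_of_deriv_nonneg (convex_Ici 0) hGcont
    · intro x hx
      rw [interior_Ici] at hx
      obtain ⟨g, _, hg⟩ := hGder x hx
      exact hg.differentiableAt.differentiableWithinAt
    · intro x hx
      rw [interior_Ici] at hx
      obtain ⟨g, hg0, hg⟩ := hGder x hx
      rw [hg.deriv]
      exact hg0
  have hG0 : G 0 = 0 := by
    have h1 : s 0 = 0 := by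
      have h2 := hse 0 le_rfl
      have h3 : Y 0 = 0 := by
        rw [hYd]
        simp
      rw [h3, zero_mul] at h2
      have h4 : s 0 ^ 2 = 0 := by linarith
      exact pow_eq_zero_iff (by norm_num) |>.1 h4
    rw [hG]
    simp [h1]
  have hfin := hmono (Set.mem_Ici.2 le_rfl) (Set.mem_Ici.2 hu.le) hu.le
  rw [hG0, hG] at hfin
  simp only at hfin
  have hp := hp1 u hu.le
  have hq : (0 : ℝ) < 1 + n * u := by positivity
  have hr : (0 : ℝ) < (1 + u) ^ n := by positivity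
  have h1 : Real.log (1 + n * u) ≤ Real.log ((1 - s u ^ 2) * (1 + u) ^ n) := by
    rw [Real.log_mul hp.ne' hr.ne', Real.log_pow]
    linarith
  have h2 := (Real.log_le_log_iff hq (by positivity)).1 h1
  have h3 : zz n u ≤ 1 - s u ^ 2 := by
    unfold zz
    rw [div_le_iff₀ hr]
    exact h2
  have h4 : STAR_sg (YY n u) = s u := by
    rw [hs, hYd]
    rfl
  rw [h4]
  linarith

theorem STAR : STAR_stmt := by
  intro n u hn hu
  have hG := STAR_G hn hu
  have hnR : (2 : ℝ) ≤ n := by exact_mod_cast hn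
  have hK : (0 : ℝ) < n * (n - 1) := by nlinarith
  have hY : 0 ≤ YY n u := by
    unfold YY
    positivity
  have h0 := STAR_sg_nonneg hY
  have h1 : 0 ≤ 1 - zz n u := le_trans (by positivity) hG
  have h2 : STAR_sg (YY n u) ≤ √(1 - zz n u) := Real.le_sqrt_of_sq_le hG
  calc YY n u * (1 - √(1 - zz n u)) ≤ YY n u * (1 - STAR_sg (YY n u)) := by
        apply mul_le_mul_of_nonneg_left _ hY
        linarith
    _ = 2 * STAR_sg (YY n u) ^ 2 := (STAR_sg_eq hY).symm
    _ ≤ 2 * (1 - zz n u) := by linarith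

end

end Pool.Agent.helper9.HQ
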